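import Pool.Agent.R974.BW.Defs

set_option autoImplicit false

namespace Pool.Agent.R403.BWSA2

open MeasureTheory ProbabilityTheory Filter Topology Set
open Pool.Agent.R967.FB Pool.Agent.R974.BW
open scoped ENNReal NNReal

lemma upSet_meas (hU : S_UPM) (t : ℝ≥0) : MeasurableSet {p : ℝ × Pth | p.2 ∈ Up p.1 t} :=
  (hU t).measurableSet

lemma up_meas (hU : S_UPM) (x : ℝ) (t : ℝ≥0) : MeasurableSet (Up x t) := by
  have h : Measurable fun w : Pth => (x, w) := measurable_const.prodMk measurable_id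
  exact h (upSet_meas hU t)

lemma stp_self (s : ℝ≥0) (w : Pth) : stp s w s = w s := by
  change w (min s s) = w s
  rw [min_self]

lemma up_stp (x : ℝ) (s : ℝ≥0) (w : Pth) : stp s w ∈ Up x s ↔ w ∈ Up x s := by
  have h : ∀ s' ≤ s, stp s w s' = w s' := by
    intro s' hs'
    change w (min s' s) = w s'
    rw [min_eq_left hs']
  constructor
  · intro h1 s' hs'
    have := h1 s' hs'
    rwa [h s' hs'] at this
  · intro h1 s' hs'
    rw [h s' hs']
    exact h1 s' hs'

lemma hk_meas (t : ℝ≥0) (x : ℝ) : Measurable fun y => ENNReal.ofReal (hk t x y) := by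
  apply Measurable.ennreal_ofReal
  unfold hk
  fun_prop

lemma KQ_add (t : ℝ≥0) (φ ψ : ℝ → ℝ≥0∞) (hφ : Measurable φ) (x : ℝ) :
    KQ t (fun y => φ y + ψ y) x = KQ t φ x + KQ t ψ x := by
  unfold KQ
  simp only [mul_add]
  exact lintegral_add_left ((hk_meas t x).mul hφ) _

lemma KQ_mul (t : ℝ≥0) (φ : ℝ → ℝ≥0∞) (hφ : Measurable φ) (c : ℝ≥0∞) (x : ℝ) :
    KQ t (fun y => c * φ y) x = c * KQ t φ x := by
  unfold KQ
  refine Eq.trans ?_ (lintegral_const_mul c ((hk_meas t x).mul hφ))
  congr 1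
  funext y
  simp only [Pi.mul_apply]
  ring

/-- innermost factor -/
noncomputable def Kf (ε : ℝ) (r : ℝ≥0) (q : ℝ × Pth) : ℝ≥0∞ :=
  ({q : ℝ × Pth | q.2 ∈ Up (ε + q.1) r}).indicator (fun q => ENNReal.ofReal (ε + q.1 + q.2 r)) q

lemma ev2_meas (r : ℝ≥0) : Measurable fun q : ℝ × Pth => q.2 r :=
  (measurable_eval r).comp measurable_snd

lemma Kf_meas (hU : S_UPM) (ε : ℝ) (r : ℝ≥0) : Measurable (Kf ε r) := by
  unfold Kf
  apply Measurable.indicator
  · apply Measurable.ennreal_ofReal
    exact (measurable_const.add measurable_fst).add (ev2_meas r)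
  · have h : Measurable fun q : ℝ × Pth => (ε + q.1, q.2) :=
      (measurable_const.add measurable_fst).prodMk measurable_snd
    exact h (upSet_meas hU r)

/-- middle factor -/
noncomputable def Jf (ε : ℝ) (r s : ℝ≥0) (q : ℝ × Pth) : ℝ≥0∞ :=
  ({q : ℝ × Pth | q.2 ∈ Up (min (ε + q.1) ε) s}).indicator
    (fun q => ENNReal.ofReal (ε + q.1 + q.2 s) * Kf ε r (q.2 s, shift s q.2)) q

lemma Jf_meas (hU : S_UPM) (ε : ℝ) (r s : ℝ≥0) : Measurable (Jf ε r s) := by
  unfold Jf
  apply Measurable.indicator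
  · apply Measurable.mul
    · apply Measurable.ennreal_ofReal
      exact (measurable_const.add measurable_fst).add (ev2_meas s)
    · exact (Kf_meas hU ε r).comp ((ev2_meas s).prodMk
        ((measurable_shift s).comp measurable_snd))
  · have h : Measurable fun q : ℝ × Pth => (min (ε + q.1) ε, q.2) :=
      ((measurable_const.add measurable_fst).min measurable_const).prodMk measurable_snd
    exact h (upSet_meas hU s)

lemma alg (y ε v : ℝ) (hv : 0 < min y ε + v) (hε : 0 < ε) (hy : 0 < y) :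
    (y + v) * (ε + v) ≤ (min y ε + v) ^ 2 + max y ε * (min y ε + v) := by
  rcases le_total y ε with h | h
  · rw [min_eq_left h, max_eq_right h] at *
    nlinarith
  · rw [min_eq_right h, max_eq_left h] at *
    nlinarith

lemma inner (hM : S_MKV) (hR : S_REF) (hU : S_UPM) (hK : S_KB1) {C₁ : ℝ≥0}
    (hC : ∀ (t : ℝ≥0) (x : ℝ), 0 < t → t ≤ 1 → 0 < x → x ≤ 1 →
      KQ t (fun y => ENNReal.ofReal (y ^ 2)) x ≤ C₁ * ENNReal.ofReal x)
    (W : Measure Pth) (hW : IsWiener W) (ε z : ℝ) (r s : ℝ≥0) (hε : 0 < ε) (hε1 : ε ≤ 1)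
    (hr : 0 < r) (hs : 0 < s) (hs1 : s ≤ 1) (hz : 0 < ε + z) :
    ∫⁻ v, Jf ε r s (z, v) ∂W ≤
      (C₁ + ENNReal.ofReal (max (ε + z) ε)) * ENNReal.ofReal (min (ε + z) ε) := by
  set y := ε + z with hy
  set a := min y ε with ha
  have ha0 : 0 < a := lt_min hz hε
  have ha1 : a ≤ 1 := (min_le_right _ _).trans hε1
  let Φ : Pth × Pth → ℝ≥0∞ := fun p =>
    (Up a s).indicator (fun v => ENNReal.ofReal (y + v s)) p.1 * Kf ε r (p.1 s, p.2)
  have hΦ : Measurable Φ := by
    apply Measurable.mul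
    · exact ((measurable_const.add (measurable_eval s)).ennreal_ofReal.indicator
        (up_meas hU a s)).comp measurable_fst
    · exact (Kf_meas hU ε r).comp
        (((measurable_eval s).comp measurable_fst).prodMk measurable_snd)
  have e1 : ∀ v, Jf ε r s (z, v) = Φ (stp s v, shift s v) := by
    intro v
    simp only [Φ, Jf]
    by_cases hv : v ∈ Up a s
    · rw [Set.indicator_of_mem, Set.indicator_of_mem, stp_self]
      · exact (up_stp a s v).mpr hv
      · exact hv
    · rw [Set.indicator_of_notMem, Set.indicator_of_notMem, zero_mul]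
      · exact fun h => hv ((up_stp a s v).mp h)
      · exact hv
  simp only [e1]
  rw [hM W hW s Φ hΦ]
  -- inner integral
  have e2 : ∀ v₁ : Pth, ∫⁻ v₂, Φ (stp s v₁, v₂) ∂W ≤
      (Up a s).indicator (fun v => ENNReal.ofReal ((a + v s) ^ 2) +
        ENNReal.ofReal (max y ε) * ENNReal.ofReal (a + v s)) v₁ := by
    intro v₁
    by_cases hv : v₁ ∈ Up a s
    · rw [Set.indicator_of_mem hv]
      have hx : 0 < ε + v₁ s := by
        have h1 := hv s le_rfl
        have h2 : a ≤ ε := min_le_right _ _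
        linarith
      have h3 : ∀ v₂, Φ (stp s v₁, v₂) = ENNReal.ofReal (y + v₁ s) *
          (Up (ε + v₁ s) r).indicator (fun v => ENNReal.ofReal (ε + v₁ s + v r)) v₂ := by
        intro v₂
        simp only [Φ]
        rw [Set.indicator_of_mem ((up_stp a s v₁).mpr hv), stp_self]
        rfl
      simp only [h3]
      rw [lintegral_const_mul _ (by
        apply Measurable.indicator _ (up_meas hU _ _)
        exact (measurable_const.add (measurable_eval r)).ennreal_ofReal)]
      rw [lintegral_indicator (up_meas hU _ _), hR W hW (ε + v₁ s) r (fun u => ENNReal.ofReal u)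
        hx hr ENNReal.measurable_ofReal]
      have hu : 0 < a + v₁ s := hv s le_rfl
      calc ENNReal.ofReal (y + v₁ s) * KQ r (fun u => ENNReal.ofReal u) (ε + v₁ s)
          ≤ ENNReal.ofReal (y + v₁ s) * ENNReal.ofReal (ε + v₁ s) := by
            gcongr
            exact hK.2.1 r _ hr hx
        _ = ENNReal.ofReal ((y + v₁ s) * (ε + v₁ s)) := by
            rw [ENNReal.ofReal_mul' hx.le]
        _ ≤ ENNReal.ofReal ((a + v₁ s) ^ 2 + max y ε * (a + v₁ s)) :=
            ENNReal.ofReal_le_ofReal (alg y ε (v₁ s) hu hε hz)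
        _ = _ := by
            rw [ENNReal.ofReal_add (by positivity) (by positivity),
              ENNReal.ofReal_mul (by positivity)]
    · rw [Set.indicator_of_notMem hv]
      have h3 : ∀ v₂, Φ (stp s v₁, v₂) = 0 := by
        intro v₂
        simp only [Φ]
        rw [Set.indicator_of_notMem (fun h => hv ((up_stp a s v₁).mp h)), zero_mul]
      simp only [h3, lintegral_zero, le_refl]
  have m1 : Measurable fun u : ℝ => ENNReal.ofReal (u ^ 2) := by fun_prop
  have m2 : Measurable fun u : ℝ => ENNReal.ofReal u := ENNReal.measurable_ofReal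
  calc ∫⁻ v₁, ∫⁻ v₂, Φ (stp s v₁, v₂) ∂W ∂W
      ≤ ∫⁻ v₁, (Up a s).indicator (fun v => ENNReal.ofReal ((a + v s) ^ 2) +
        ENNReal.ofReal (max y ε) * ENNReal.ofReal (a + v s)) v₁ ∂W := lintegral_mono e2
    _ = KQ s (fun u => ENNReal.ofReal (u ^ 2) + ENNReal.ofReal (max y ε) * ENNReal.ofReal u) a := by
        rw [lintegral_indicator (up_meas hU _ _)]
        exact hR W hW a s (fun u => ENNReal.ofReal (u ^ 2) +
          ENNReal.ofReal (max y ε) * ENNReal.ofReal u) ha0 hs (m1.add (m2.const_mul _))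
    _ = KQ s (fun u => ENNReal.ofReal (u ^ 2)) a +
        ENNReal.ofReal (max y ε) * KQ s (fun u => ENNReal.ofReal u) a := by
        rw [KQ_add _ _ _ m1, KQ_mul _ _ m2]
    _ ≤ C₁ * ENNReal.ofReal a + ENNReal.ofReal (max y ε) * ENNReal.ofReal a := by
        gcongr
        · exact hC s a hs hs1 ha0 ha1
        · exact hK.2.1 s a hs ha0
    _ = _ := by rw [add_mul]

theorem t_SA2 (hM : S_MKV) (hR : S_REF) (hU : S_UPM) (hK : S_KB1) : S_SA2 := by
  obtain ⟨C₁, hC⟩ := hK.2.2
  refine ⟨C₁ + 2, ?_⟩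
  intro W hW h ε r hh hbound hε hε1 hr hr2
  set s : ℝ≥0 := 1 - r with hs
  have hr1 : r ≤ 1 := hr2.trans (by norm_num)
  have hrs : r + s = 1 := by rw [hs]; exact add_tsub_cancel_of_le hr1
  have hs0 : 0 < s := by
    rw [hs]
    apply tsub_pos_of_lt
    exact lt_of_le_of_lt hr2 (by norm_num)
  have hs1 : s ≤ 1 := tsub_le_self
  have hWp : IsProbabilityMeasure W := hW.isGaussianProcess.isProbabilityMeasure
  set c : ℝ≥0∞ := ENNReal.ofReal (1 / ε) with hc
  have hcε : c * ENNReal.ofReal ε = 1 := by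
    rw [hc, ← ENNReal.ofReal_mul (by positivity), one_div, inv_mul_cancel₀ hε.ne',
      ENNReal.ofReal_one]
  -- pointwise bound
  have hpt : ∀ w : Pth, fw h ε w * fw h ε (shift r w) ≤
      c ^ 2 * ((Up ε r).indicator 1 w * Jf ε r s (w r, shift r w)) := by
    intro w
    by_cases h1 : w ∈ Up ε 1
    swap
    · simp only [fw]
      rw [Set.indicator_of_notMem h1, zero_mul]
      exact zero_le
    by_cases h2 : shift r w ∈ Up ε 1
    swap
    · simp only [fw]
      rw [Set.indicator_of_notMem h2, mul_zero]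
      exact zero_le
    have g1 : w ∈ Up ε r := fun s' hs' => h1 s' (hs'.trans hr1)
    have g2 : shift r w ∈ Up (min (ε + w r) ε) s := by
      intro s' hs'
      have k1 : 0 < ε + w r + shift r w s' := by
        rw [shift_apply]
        have := h1 (r + s') (by rw [← hrs]; gcongr)
        linarith
      have k2 : 0 < ε + shift r w s' := h2 s' (hs'.trans hs1)
      rcases min_choice (ε + w r) ε with h | h <;> rw [h] <;> assumption
    have g3 : shift s (shift r w) ∈ Up (ε + shift r w s) r := by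
      intro s' hs'
      rw [shift_apply s]
      have := h2 (s + s') (by rw [← hrs, add_comm r s]; gcongr)
      linarith
    have v1 : 0 < w 1 + ε := by
      have := h1 1 le_rfl
      linarith
    have v2 : 0 < shift r w 1 + ε := by
      have := h2 1 le_rfl
      linarith
    have w1 : w 1 + ε = ε + w r + shift r w s := by
      rw [shift_apply, hrs]; ring
    have w2 : shift r w 1 + ε = ε + shift r w s + shift s (shift r w) r := by
      rw [shift_apply s, add_comm s r, hrs]; ring
    simp only [fw, Jf, Kf]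
    rw [Set.indicator_of_mem h1, Set.indicator_of_mem h2, Set.indicator_of_mem g1]
    rw [Set.indicator_of_mem (show ((w r, shift r w) : ℝ × Pth) ∈
      {q : ℝ × Pth | q.2 ∈ Up (min (ε + q.1) ε) s} from g2)]
    rw [Set.indicator_of_mem (show ((shift r w s, shift s (shift r w)) : ℝ × Pth) ∈
      {q : ℝ × Pth | q.2 ∈ Up (ε + q.1) r} from g3)]
    simp only [Pi.one_apply, one_mul]
    rw [← w1, ← w2]
    calc c * h (w 1 + ε) * (c * h (shift r w 1 + ε))
        ≤ c * ENNReal.ofReal (w 1 + ε) * (c * ENNReal.ofReal (shift r w 1 + ε)) := by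
          gcongr
          · exact hbound _ v1
          · exact hbound _ v2
      _ = _ := by ring
  let Φ : Pth × Pth → ℝ≥0∞ := fun p => (Up ε r).indicator 1 p.1 * Jf ε r s (p.1 r, p.2)
  have hΦ : Measurable Φ := by
    apply Measurable.mul
    · exact (Measurable.indicator measurable_one (up_meas hU ε r)).comp measurable_fst
    · exact (Jf_meas hU ε r s).comp
        (((measurable_eval r).comp measurable_fst).prodMk measurable_snd)
  have e1 : ∀ w, (Up ε r).indicator 1 w * Jf ε r s (w r, shift r w) = Φ (stp r w, shift r w) := by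
    intro w
    simp only [Φ]
    rw [stp_self]
    congr 1
    by_cases hv : w ∈ Up ε r
    · rw [Set.indicator_of_mem hv, Set.indicator_of_mem ((up_stp ε r w).mpr hv)]
      rfl
    · rw [Set.indicator_of_notMem hv,
        Set.indicator_of_notMem (fun h => hv ((up_stp ε r w).mp h))]
  have e2 : ∀ w₁ : Pth, ∫⁻ w₂, Φ (stp r w₁, w₂) ∂W ≤ (Up ε r).indicator
      (fun w => ENNReal.ofReal ε * ((C₁ + 1) * 1 + ENNReal.ofReal (ε + w r))) w₁ := by
    intro w₁
    by_cases hv : w₁ ∈ Up ε r
    · rw [Set.indicator_of_mem hv]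
      have h3 : ∀ w₂, Φ (stp r w₁, w₂) = Jf ε r s (w₁ r, w₂) := by
        intro w₂
        simp only [Φ]
        rw [Set.indicator_of_mem ((up_stp ε r w₁).mpr hv), stp_self]
        simp
      simp only [h3]
      have hz : 0 < ε + w₁ r := hv r le_rfl
      refine (inner hM hR hU hK hC W hW ε (w₁ r) r s hε hε1 hr hs0 hs1 hz).trans ?_
      rw [mul_comm (ENNReal.ofReal ε)]
      apply mul_le_mul'
      · rw [mul_one, add_assoc]
        apply add_le_add le_rfl
        rw [← ENNReal.ofReal_one, ← ENNReal.ofReal_add zero_le_one hz.le]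
        apply ENNReal.ofReal_le_ofReal
        apply max_le <;> linarith
      · exact ENNReal.ofReal_le_ofReal (min_le_right _ _)
    · rw [Set.indicator_of_notMem hv]
      have h3 : ∀ w₂, Φ (stp r w₁, w₂) = 0 := by
        intro w₂
        simp only [Φ]
        rw [Set.indicator_of_notMem (fun h => hv ((up_stp ε r w₁).mp h)), zero_mul]
      simp only [h3, lintegral_zero, le_refl]
  have m0 : Measurable fun _ : ℝ => (1 : ℝ≥0∞) := measurable_const
  have m2 : Measurable fun u : ℝ => ENNReal.ofReal u := ENNReal.measurable_ofReal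
  have main : ∫⁻ w, Φ (stp r w, shift r w) ∂W ≤ ENNReal.ofReal ε *
      ((C₁ + 1) * ENNReal.ofReal (ε * (r : ℝ) ^ (-(1 / 2) : ℝ)) + ENNReal.ofReal ε) := by
    rw [hM W hW r Φ hΦ]
    calc ∫⁻ w₁, ∫⁻ w₂, Φ (stp r w₁, w₂) ∂W ∂W
        ≤ ∫⁻ w₁, (Up ε r).indicator
          (fun w => ENNReal.ofReal ε * ((C₁ + 1) * 1 + ENNReal.ofReal (ε + w r))) w₁ ∂W :=
          lintegral_mono e2
      _ = KQ r (fun u => ENNReal.ofReal ε * ((C₁ + 1) * 1 + ENNReal.ofReal u)) ε := by
          rw [lintegral_indicator (up_meas hU _ _)]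
          exact hR W hW ε r (fun u => ENNReal.ofReal ε * ((C₁ + 1) * 1 + ENNReal.ofReal u)) hε hr
            ((measurable_const.add m2).const_mul _)
      _ = ENNReal.ofReal ε * ((C₁ + 1) * KQ r (fun _ => 1) ε +
          KQ r (fun u => ENNReal.ofReal u) ε) := by
          rw [KQ_mul r (fun u => (C₁ + 1) * 1 + ENNReal.ofReal u) (measurable_const.add m2)
              (ENNReal.ofReal ε) ε,
            KQ_add r (fun _ => (C₁ + 1) * 1) (fun u => ENNReal.ofReal u) measurable_const ε,
            KQ_mul r (fun _ => 1) m0 (C₁ + 1) ε]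
      _ ≤ _ := by
          gcongr
          · exact hK.1 r ε hr hε
          · exact hK.2.1 r ε hr hε
  have hrr : (0 : ℝ) < r := by exact_mod_cast hr
  have hr1' : (r : ℝ) ≤ 1 := by exact_mod_cast hr1
  calc ∫⁻ w, fw h ε w * fw h ε (shift r w) ∂W
      ≤ ∫⁻ w, c ^ 2 * Φ (stp r w, shift r w) ∂W := by
        apply lintegral_mono
        intro w
        simp only
        rw [← e1]
        exact hpt w
    _ = c ^ 2 * ∫⁻ w, Φ (stp r w, shift r w) ∂W := by
        rw [lintegral_const_mul' _ _ (by rw [hc]; exact ENNReal.pow_ne_top ENNReal.ofReal_ne_top)]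
    _ ≤ c ^ 2 * (ENNReal.ofReal ε *
      ((C₁ + 1) * ENNReal.ofReal (ε * (r : ℝ) ^ (-(1 / 2) : ℝ)) + ENNReal.ofReal ε)) := by
        gcongr
    _ = (C₁ + 1) * ENNReal.ofReal ((r : ℝ) ^ (-(1 / 2) : ℝ)) + 1 := by
        rw [ENNReal.ofReal_mul hε.le]
        calc c ^ 2 * (ENNReal.ofReal ε * ((C₁ + 1) * (ENNReal.ofReal ε *
              ENNReal.ofReal ((r : ℝ) ^ (-(1 / 2) : ℝ))) + ENNReal.ofReal ε))
            = (c * ENNReal.ofReal ε) ^ 2 * (C₁ + 1) *
                ENNReal.ofReal ((r : ℝ) ^ (-(1 / 2) : ℝ)) + (c * ENNReal.ofReal ε) ^ 2 := by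
              ring
          _ = _ := by rw [hcε]; ring
    _ ≤ (C₁ + 1) * ENNReal.ofReal ((r : ℝ) ^ (-(3 / 4) : ℝ)) +
        ENNReal.ofReal ((r : ℝ) ^ (-(3 / 4) : ℝ)) := by
        apply add_le_add
        · apply mul_le_mul' le_rfl
          apply ENNReal.ofReal_le_ofReal
          exact Real.rpow_le_rpow_of_exponent_ge hrr hr1' (by norm_num)
        · rw [← ENNReal.ofReal_one]
          apply ENNReal.ofReal_le_ofReal
          apply Real.one_le_rpow_of_pos_of_le_one_of_nonpos hrr hr1' (by norm_num)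
    _ = ((C₁ + 2 : ℝ≥0) : ℝ≥0∞) * ENNReal.ofReal ((r : ℝ) ^ (-(3 / 4) : ℝ)) := by
        have h2 : ((C₁ + 2 : ℝ≥0) : ℝ≥0∞) = C₁ + 1 + 1 := by
          rw [ENNReal.coe_add, add_assoc]
          norm_num
        rw [h2, add_mul (C₁ + 1 : ℝ≥0∞), one_mul]

end Pool.Agent.R403.BWSA2
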